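import Pool.Agent.H.MP_9a42a6_lc.A

set_option autoImplicit false

namespace Pool.Agent.Results.MP_e5b57d_lc.Inf

open Cardinal Set

theorem result (κ : Cardinal.{0}) (hκ : ℵ₀ < κ) (h : ∀ μ < κ, (2 : Cardinal.{0}) ^ μ < 2 ^ κ)
    (c : Sym2 (Iio κ.ord → Bool) → Iio κ.ord)
    (hc : ∃ μ < κ, ∀ (x y : Iio κ.ord → Bool) (i : Iio κ.ord),
      x i ≠ y i → (∀ j < i, x j = y j) → (c s(x, y)).1 < max i.1 μ.ord) :
    ∃ (Y : Set (Iio κ.ord → Bool)) (a : Iio κ.ord),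
      (Y.Pairwise fun x y => c s(x, y) = a) ∧ Y.Infinite ∧ ¬Y.Countable := by
  obtain ⟨μ, hμ, hc⟩ := hc
  obtain ⟨Y, ⟨a, h1⟩, h2⟩ := H.MP_9a42a6_lc.main (ν := max ℵ₀ μ) (le_max_left _ _)
    (h _ (max_lt hκ hμ)) ⟨μ.ord, ord_lt_ord.2 hμ⟩ (by simp) c
      fun x y i l a b => (hc x y i a b).trans_eq (max_eq_left l)
  have h3 : ¬Y.Countable := fun k => h2.not_ge ((le_aleph0_iff_set_countable.2 k).trans (by simp))
  exact ⟨Y, a, h1, fun k => h3 k.countable, h3⟩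

end Pool.Agent.Results.MP_e5b57d_lc.Inf
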